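import Mathlib
import Pool.Agent.H502.PcFinal
import Pool.Agent.Y617.CF.Src

/-! One formula scheme of the F,G-fragment of PCTL with two probability constants as parameters. -/

set_option autoImplicit false

namespace Pool.Agent.Y617.PC

open Pool.Agent.H502 Pool.Agent.H502.Pc

/-- the probability constant `(1 + 2^(-m) / 2) / 32` -/
def cst (m : ℕ) : Set.Icc (0 : ℚ) 1 := ⟨(1 + (1 / 2) ^ m / 2) / 32, by
  have h1 : (1 / 2 : ℚ) ^ m ≤ 1 := pow_le_one₀ (by norm_num) (by norm_num)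
  have h0 : 0 ≤ (1 / 2 : ℚ) ^ m := by positivity
  constructor
  · positivity
  · linarith⟩

/-- the scheme `P(G(α ∧ (β ∨ (γ ∧ (P(F δ) = p ∧ P(F ε) = q))))) = 1 ∧ ζ` -/
def scheme (α β γ δ ε ζ : Form ℕ) (p q : Set.Icc (0 : ℚ) 1) : Form ℕ :=
  .and (.PG (.and α (.or β (.and γ (.and (.PF δ .eq p) (.PF ε .eq q))))) .eq
    ⟨1, by constructor <;> norm_num⟩) ζ

theorem proj_rin (n : ℕ) : Set.projIcc (0 : ℚ) 1 zero_le_one (rin n) = cst n := by
  have hm : rin n ∈ Set.Icc (0 : ℚ) 1 := (cst n).2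
  rw [Set.projIcc_of_mem zero_le_one hm]
  rfl

theorem main : ∃ α β γ δ ε ζ : Form ℕ, ∃ N : ℕ → ℕ, Computable N ∧
    (Computable fun n => (scheme α β γ δ ε ζ (cst (N n)) (cst (2 * N n))).code) ∧
    ∀ n, HasTreeModel (scheme α β γ δ ε ζ (cst (N n)) (cst (2 * N n))) ↔ (PcSrc.u n).Dom := by
  classical
  obtain ⟨Q, hQ, M, q0, N, _, hN, hU⟩ := Pool.Agent.Y617.CF.exists_sys_iff
  let p0 : PcSrc.RS M := .d1 q0 (PcSrc.z0 M)
  let W := nsOf (toDM (PcSrc.dm M q0 0)) p0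
  let _ : Fintype ((PcSrc.RS M × Bool) ⊕ Rg) := Fintype.ofFinite _
  obtain ⟨e, he⟩ := exists_injective_nat (Pr ((PcSrc.RS M × Bool) ⊕ Rg))
  have hs : ∀ n, (Phi W none n).map e = scheme ((gam W).map e)
      ((Form.neg (.atom Pr.ini) : Form (Pr ((PcSrc.RS M × Bool) ⊕ Rg))).map e)
      ((ini1 : Form (Pr ((PcSrc.RS M × Bool) ⊕ Rg))).map e)
      ((fA {Pr.dt false (false, true) false} : Form (Pr ((PcSrc.RS M × Bool) ⊕ Rg))).map e)
      ((fA {Pr.dt false (false, true) true} : Form (Pr ((PcSrc.RS M × Bool) ⊕ Rg))).map e)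
      ((anyF Pr.ini fun i : Bool => Form.and (fA (cfS W i none))
        (allF Pr.ini fun y : Rg × Bool => eqP {Pr.dt i y.1 y.2} (3 / 64)) :
          Form (Pr ((PcSrc.RS M × Bool) ⊕ Rg))).map e) (cst n) (cst (2 * n)) := by
    intro n
    unfold Phi Gam scheme
    simp only [Form.map, eqP, proj_rin]
  refine ⟨_, _, _, _, _, _, N, hN, (code_comp W none e N hN).of_eq fun n => congrArg _ (hs (N n)),
    fun n => ?_⟩
  rw [← hs (N n), map_iff e he, phi_iff, ns_iff, toDM_halts, ← hU n,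
    ← PcSrc.dm_halts_iff M q0 0 q0 (PcSrc.ini (N n))]
  have : (PcSrc.v4 (PcSrc.ini (N n) true) (PcSrc.ini (N n) false) 0 0 : Bool × Bool → ℤ) =
      fun j => (cin (N n) j : ℤ) := by
    funext ⟨a, b⟩
    cases a <;> cases b <;> simp [PcSrc.v4, cin, PcSrc.ini]
  rw [this]

theorem reduction : ∃ α β γ δ ε ζ : Form ℕ, ∀ S : ℕ → Prop, REPred S → ∃ N : ℕ → ℕ,
    Computable N ∧
    (Computable fun n => (scheme α β γ δ ε ζ (cst (N n)) (cst (2 * N n))).code) ∧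
    ∀ n, S n ↔ HasTreeModel (scheme α β γ δ ε ζ (cst (N n)) (cst (2 * N n))) := by
  obtain ⟨α, β, γ, δ, ε, ζ, N, hN, hc, h⟩ := main
  refine ⟨α, β, γ, δ, ε, ζ, fun S hS => ?_⟩
  obtain ⟨c, hcc, hcS⟩ := Pool.Agent.Y617.MO.exists_codes hS
  have hce : Computable fun n => Encodable.encode (c n) := Computable.encode.comp hcc
  refine ⟨fun n => N (Encodable.encode (c n)), hN.comp hce, hc.comp hce, fun n => ?_⟩
  rw [h, ← hcS]
  simp [PcSrc.u, Denumerable.ofNat_encode]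

end Pool.Agent.Y617.PC
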